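import Pool.Agent.RHT.All

/-!
# Tame oracles and the real hierarchy
-/

namespace Pool.Agent.Results.MP_f917a3_lc.TameOracles

open Pool.Agent.RH

/-- For every `k ≥ 1` there is an oracle `O`, a set of finite vectors of natural numbers with at
most `2^m` vectors of each length `m`, relative to which all the classes `Σ_jℝ` and `Π_jℝ` with
`j ≤ k` are equal to `Σ_0ℝ`, while for every `j ≥ k` some problem in `Σ_{j+1}ℝ` is in none of
`Π_{j+1}ℝ`, `Σ_jℝ`, `Π_jℝ`. -/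
theorem result : ∀ k, 1 ≤ k → ∃ O : Set (List ℝ),
    (∀ m, {l | l ∈ O ∧ l.length = m}.Finite ∧ {l | l ∈ O ∧ l.length = m}.ncard ≤ 2 ^ m) ∧
    (∀ l ∈ O, ∀ z ∈ l, ∃ c : ℕ, z = (c : ℝ)) ∧
    (∀ j ≤ k, ∀ L, (InSigma O j L ↔ InSigma O 0 L) ∧ (InPi O j L ↔ InSigma O 0 L)) ∧
    ∀ j, k ≤ j → ∃ L, InSigma O (j + 1) L ∧ ¬ InPi O (j + 1) L ∧ ¬ InSigma O j L ∧ ¬ InPi O j L :=
  Pool.Agent.RHT.main

end Pool.Agent.Results.MP_f917a3_lc.TameOracles
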